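import Mathlib

/-!
# Cellular-Lindelöf spaces: increasing chains of open sets and the closing off argument

(MP_95b5c3_gt)
-/

set_option autoImplicit false

universe u

namespace Pool.Agent.W2helper80.CL

open Set Cardinal Topology

/-- every family of pairwise disjoint nonempty open sets is met by a Lindelöf subspace -/
def CellularLindelof (X : Type u) [TopologicalSpace X] : Prop :=
  ∀ C : Set (Set X), (∀ U ∈ C, IsOpen U ∧ U.Nonempty) →
    (∀ U ∈ C, ∀ V ∈ C, U ≠ V → Disjoint U V) →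
      ∃ L : Set X, IsLindelof L ∧ ∀ U ∈ C, (L ∩ U).Nonempty

/-- the key lemma: a closed set covered by an increasing chain of open sets (of a length in which
countable sets are bounded) is contained in the closure of one of them -/
theorem key {X : Type u} [TopologicalSpace X] [NormalSpace X] (hX : CellularLindelof X)
    {ι : Type u} [LinearOrder ι]
    (h1 : ∀ s : Set ι, s.Countable → ∃ b, ∀ a ∈ s, a ≤ b)
    (h2 : ∀ (g : ι → ι) (b : ι), ∃ c, ∀ a ≤ b, g a ≤ c)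
    (O : ι → Set X) (hO : ∀ i, IsOpen (O i)) (hmono : ∀ i j, i ≤ j → O i ⊆ O j)
    (F : Set X) (hF : IsClosed F) (hcov : F ⊆ ⋃ i, O i) : ∃ i, F ⊆ closure (O i) := by
  classical
  by_contra hcon
  push Not at hcon
  have hx : ∀ i, ∃ x, x ∈ F ∧ x ∉ closure (O i) := by
    intro i
    exact Set.not_subset.1 (hcon i)
  choose x hxF hxO using hx
  have hg : ∀ i, ∃ j, x i ∈ O j := fun i => mem_iUnion.1 (hcov (hxF i))
  choose g hg using hg
  -- a maximal set of indices with disjoint intervals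
  obtain ⟨S, hS⟩ : ∃ S : Set ι, Maximal (fun S : Set ι => ∀ a ∈ S, ∀ b ∈ S, a < b → g a ≤ b) S := by
    refine zorn_subset {S : Set ι | ∀ a ∈ S, ∀ b ∈ S, a < b → g a ≤ b} ?_
    intro c hc hchain
    refine ⟨⋃₀ c, ?_, fun s hs => subset_sUnion_of_mem hs⟩
    rintro a ⟨s, hs, has⟩ b ⟨t, ht, hbt⟩ hab
    rcases hchain.total hs ht with h | h
    · exact hc ht a (h has) b hbt hab
    · exact hc hs a has b (h hbt) hab
  have hSP := hS.prop
  have hunb : ∀ b, ∃ a ∈ S, b ≤ a := by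
    intro b
    by_contra hb
    push Not at hb
    obtain ⟨c, hc⟩ := h2 g b
    have hins : ∀ a ∈ insert (max b c) S, ∀ a' ∈ insert (max b c) S, a < a' → g a ≤ a' := by
      intro a ha a' ha' haa'
      rcases mem_insert_iff.1 ha with rfl | ha
      · rcases mem_insert_iff.1 ha' with rfl | ha'
        · exact absurd haa' (lt_irrefl _)
        · exact absurd (lt_trans haa' (hb a' ha')) (not_lt.2 (le_max_left _ _))
      · rcases mem_insert_iff.1 ha' with rfl | ha'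
        · exact (hc a (hb a ha).le).trans (le_max_right _ _)
        · exact hSP a ha a' ha' haa'
    have hsub : insert (max b c) S ⊆ S := hS.le_of_ge hins (subset_insert _ _)
    exact absurd (hb _ (hsub (mem_insert _ _))) (not_lt.2 (le_max_left _ _))
  obtain ⟨G, hGo, hFG, hGO⟩ := normal_exists_closure_subset hF (isOpen_iUnion hO) hcov
  -- the cellular family
  set W : ι → Set X := fun a => (G ∩ O (g a)) \ closure (O a) with hW
  obtain ⟨L, hL, hLW⟩ := hX (W '' S) (by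
    rintro _ ⟨a, _, rfl⟩
    refine ⟨(hGo.inter (hO _)).sdiff isClosed_closure, x a, ⟨hFG (hxF a), hg a⟩, hxO a⟩) (by
    rintro _ ⟨a, ha, rfl⟩ _ ⟨b, hb, rfl⟩ hne
    have hab : a ≠ b := fun h => hne (by rw [h])
    rw [Set.disjoint_left]
    rcases lt_or_gt_of_ne hab with h | h
    · rintro y ⟨⟨_, hy⟩, _⟩ ⟨_, hy'⟩
      exact hy' (subset_closure (hmono _ _ (hSP a ha b hb h) hy))
    · rintro y ⟨_, hy'⟩ ⟨⟨_, hy⟩, _⟩
      exact hy' (subset_closure (hmono _ _ (hSP b hb a ha h) hy)))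
  have hL2 : IsLindelof (L ∩ closure G) := hL.inter_right isClosed_closure
  obtain ⟨r, hr, hrc⟩ := hL2.elim_countable_subcover O hO (fun y hy => hGO hy.2)
  obtain ⟨b, hb⟩ := h1 r hr
  obtain ⟨a, haS, hba⟩ := hunb b
  obtain ⟨y, hyL, ⟨hyG, _⟩, hyO⟩ := hLW (W a) (mem_image_of_mem _ haS)
  obtain ⟨i, hir, hyi⟩ := mem_iUnion₂.1 (hrc ⟨hyL, subset_closure hyG⟩)
  exact hyO (subset_closure (hmono _ _ ((hb i hir).trans hba) hyi))

/-- small subsets of a regular cardinal are bounded -/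
theorem bounded {κ : Cardinal.{u}} (hκ : κ.IsRegular) (s : Set κ.ord.ToType) (hs : #s < κ) :
    ∃ b, ∀ a ∈ s, a < b := by
  by_contra h
  push Not at h
  have h1 : (⋃ a ∈ s, Set.Iic a) = Set.univ := by
    apply Set.eq_univ_of_forall
    intro b
    obtain ⟨a, ha, hab⟩ := h b
    exact mem_iUnion₂.2 ⟨a, ha, hab⟩
  have h2 : #(⋃ a ∈ s, Set.Iic a : Set κ.ord.ToType) < κ := by
    rw [card_biUnion_lt_iff_forall_of_isRegular hκ hs]
    intro a _
    have h3 : Set.Iic a = insert a (Set.Iio a) := by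
      ext c
      simp [le_iff_eq_or_lt]
    rw [h3]
    refine lt_of_le_of_lt (mk_insert_le) ?_
    exact add_lt_of_lt hκ.aleph0_le (mk_Iio_toType_ord_lt a) (one_lt_aleph0.trans_le hκ.aleph0_le)
  rw [h1, mk_univ, mk_ord_toType] at h2
  exact lt_irrefl _ h2

theorem mk_Iic_lt {κ : Cardinal.{u}} (hκ : κ.IsRegular) (a : κ.ord.ToType) : #(Set.Iic a) < κ := by
  have h3 : Set.Iic a = insert a (Set.Iio a) := by
    ext c
    simp [le_iff_eq_or_lt]
  rw [h3]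
  refine lt_of_le_of_lt (mk_insert_le) ?_
  exact add_lt_of_lt hκ.aleph0_le (mk_Iio_toType_ord_lt a) (one_lt_aleph0.trans_le hκ.aleph0_le)

/-- the closing off argument -/
theorem main {X : Type u} [TopologicalSpace X] [NormalSpace X] (hX : CellularLindelof X)
    (ht : ∀ (A : Set X) (x : X), x ∈ closure A → ∃ B ⊆ A, B.Countable ∧ x ∈ closure B)
    (κ : Cardinal.{u}) (hκ : κ.IsRegular) (hω : ℵ₀ < κ)
    (𝒰 : Set (Set X)) (hU : ∀ U ∈ 𝒰, IsOpen U) (hcov : ⋃₀ 𝒰 = Set.univ)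
    (hcl : ∀ A : Set X, #A < κ → ∃ 𝒱 ⊆ 𝒰, #𝒱 ≤ κ ∧ closure A ⊆ ⋃₀ 𝒱) :
    ∃ 𝒱 ⊆ 𝒰, #𝒱 < κ ∧ Dense (⋃₀ 𝒱) := by
  classical
  by_contra hcon
  have hp : ∀ 𝒱 : Set (Set X), ∃ x, 𝒱 ⊆ 𝒰 → #𝒱 < κ → x ∉ closure (⋃₀ 𝒱) := by
    intro 𝒱
    by_cases h : 𝒱 ⊆ 𝒰 ∧ #𝒱 < κ
    · have h1 : ¬ Dense (⋃₀ 𝒱) := fun hd => hcon ⟨𝒱, h.1, h.2, hd⟩
      rw [dense_iff_closure_eq, Set.eq_univ_iff_forall] at h1
      push Not at h1
      obtain ⟨x, hx⟩ := h1
      exact ⟨x, fun _ _ => hx⟩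
    · have h1 : ¬ Dense (⋃₀ (∅ : Set (Set X))) := fun hd =>
        hcon ⟨∅, empty_subset _, by simpa using hκ.pos, hd⟩
      rw [dense_iff_closure_eq, Set.eq_univ_iff_forall] at h1
      push Not at h1
      obtain ⟨x, _⟩ := h1
      exact ⟨x, fun h2 h3 => absurd ⟨h2, h3⟩ h⟩
  choose p hp using hp
  -- a member of the cover
  obtain ⟨U0, hU0, _⟩ : ∃ U ∈ 𝒰, p ∅ ∈ U := by
    have : p ∅ ∈ ⋃₀ 𝒰 := by rw [hcov]; trivial
    exact this
  have hE : ∀ A : Set X, ∃ E : κ.ord.ToType → Set X, (∀ ξ, E ξ ∈ 𝒰) ∧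
      (#A < κ → closure A ⊆ ⋃ ξ, E ξ) := by
    intro A
    by_cases hA : #A < κ
    · obtain ⟨𝒱, hV, hVκ, hVc⟩ := hcl A hA
      have h1 : #𝒱 ≤ #(κ.ord.ToType) := by rw [mk_ord_toType]; exact hVκ
      obtain ⟨φ⟩ := Cardinal.le_def _ _ |>.1 h1
      refine ⟨Function.extend φ (fun v : 𝒱 => (v : Set X)) (fun _ => U0), ?_, ?_⟩
      · intro ξ
        by_cases h : ∃ v, φ v = ξ
        · obtain ⟨v, rfl⟩ := h
          rw [φ.injective.extend_apply]
          exact hV v.2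
        · rw [Function.extend_apply' _ _ _ h]
          exact hU0
      · intro _ y hy
        obtain ⟨v, hv, hyv⟩ := hVc hy
        refine mem_iUnion.2 ⟨φ ⟨v, hv⟩, ?_⟩
        rw [φ.injective.extend_apply]
        exact hyv
    · exact ⟨fun _ => U0, fun _ => hU0, fun h => absurd h hA⟩
  choose E hEU hEc using hE
  -- the recursion
  let step : ∀ α : κ.ord.ToType, (∀ γ : κ.ord.ToType, γ < α → X) → X := fun α ih =>
    p {U | ∃ β, β ≤ α ∧ ∃ ξ, ξ < α ∧ U = E {x | ∃ γ, ∃ h : γ < α, γ < β ∧ x = ih γ h} ξ}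
  let f : κ.ord.ToType → X := wellFounded_lt.fix step
  let A : κ.ord.ToType → Set X := fun β => f '' Set.Iio β
  let V : κ.ord.ToType → Set (Set X) := fun α => {U | ∃ β, β ≤ α ∧ ∃ ξ, ξ < α ∧ U = E (A β) ξ}
  have hf : ∀ α, f α = p (V α) := by
    intro α
    have h1 : f α = step α (fun γ _ => f γ) := wellFounded_lt.fix_eq step α
    rw [h1]
    show p _ = p _
    congr 1
    ext U
    simp only [mem_setOf_eq, V]
    constructor
    · rintro ⟨β, hβ, ξ, hξ, rfl⟩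
      refine ⟨β, hβ, ξ, hξ, ?_⟩
      congr 1
      ext y
      constructor
      · rintro ⟨γ, _, hγ, rfl⟩
        exact ⟨γ, hγ, rfl⟩
      · rintro ⟨γ, hγ, rfl⟩
        exact ⟨γ, lt_of_lt_of_le hγ hβ, hγ, rfl⟩
    · rintro ⟨β, hβ, ξ, hξ, rfl⟩
      refine ⟨β, hβ, ξ, hξ, ?_⟩
      congr 1
      ext y
      constructor
      · rintro ⟨γ, hγ, rfl⟩
        exact ⟨γ, lt_of_lt_of_le hγ hβ, hγ, rfl⟩
      · rintro ⟨γ, _, hγ, rfl⟩
        exact ⟨γ, hγ, rfl⟩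
  have hAκ : ∀ β, #(A β) < κ := fun β => lt_of_le_of_lt mk_image_le (mk_Iio_toType_ord_lt β)
  have hVU : ∀ α, V α ⊆ 𝒰 := by
    rintro α U ⟨β, _, ξ, _, rfl⟩
    exact hEU _ _
  have hVκ : ∀ α, #(V α) < κ := by
    intro α
    have h1 : V α ⊆ (fun q : κ.ord.ToType × κ.ord.ToType => E (A q.1) q.2) '' (Set.Iic α ×ˢ Set.Iio α) := by
      rintro U ⟨β, hβ, ξ, hξ, rfl⟩
      exact ⟨(β, ξ), ⟨hβ, hξ⟩, rfl⟩
    refine lt_of_le_of_lt (mk_le_mk_of_subset h1) (lt_of_le_of_lt mk_image_le ?_)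
    rw [mk_setProd]
    exact mul_lt_of_lt hκ.aleph0_le (by simpa using mk_Iic_lt hκ α) (by simpa using mk_Iio_toType_ord_lt α)
  have hVmono : ∀ α α', α ≤ α' → V α ⊆ V α' := by
    rintro α α' h U ⟨β, hβ, ξ, hξ, rfl⟩
    exact ⟨β, hβ.trans h, ξ, lt_of_lt_of_le hξ h, rfl⟩
  have hcount : ∀ s : Set κ.ord.ToType, s.Countable → ∃ b, ∀ a ∈ s, a ≤ b := by
    intro s hs
    obtain ⟨b, hb⟩ := bounded hκ s (lt_of_le_of_lt (le_aleph0_iff_set_countable.2 hs) hω)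
    exact ⟨b, fun a ha => (hb a ha).le⟩
  have hnomax : ∀ a : κ.ord.ToType, ∃ b, a < b := by
    intro a
    obtain ⟨b, hb⟩ := bounded hκ {a} (by simpa using hκ.nat_lt 1)
    exact ⟨b, hb a rfl⟩
  -- the closed set
  set F : Set X := ⋃ β, closure (A β) with hFdef
  have hAmono : ∀ β β', β ≤ β' → A β ⊆ A β' := by
    rintro β β' h _ ⟨γ, hγ, rfl⟩
    exact ⟨γ, lt_of_lt_of_le hγ h, rfl⟩
  have hF : IsClosed F := by
    apply isClosed_of_closure_subset
    intro x hx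
    obtain ⟨B, hBF, hB, hxB⟩ := ht F x hx
    have h1 : ∀ b : B, ∃ β, (b : X) ∈ closure (A β) := fun b => mem_iUnion.1 (hBF b.2)
    choose β hβ using h1
    have : Countable B := hB.to_subtype
    obtain ⟨b, hb⟩ := hcount (Set.range β) (Set.countable_range β)
    have h2 : B ⊆ closure (A b) := fun y hy =>
      closure_mono (hAmono _ _ (hb _ ⟨⟨y, hy⟩, rfl⟩)) (hβ ⟨y, hy⟩)
    refine mem_iUnion.2 ⟨b, ?_⟩
    have h3 := closure_mono h2 hxB
    rwa [closure_closure] at h3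
  have hFc : F ⊆ ⋃ α, ⋃₀ (V α) := by
    intro x hx
    obtain ⟨β, hβ⟩ := mem_iUnion.1 hx
    obtain ⟨ξ, hξ⟩ := mem_iUnion.1 (hEc (A β) (hAκ β) hβ)
    obtain ⟨α, hα⟩ := hnomax (max β ξ)
    refine mem_iUnion.2 ⟨α, E (A β) ξ, ?_, hξ⟩
    exact ⟨β, (le_max_left _ _).trans hα.le, ξ, lt_of_le_of_lt (le_max_right _ _) hα, rfl⟩
  obtain ⟨α, hα⟩ := key hX hcount (by
      intro g b
      obtain ⟨c, hc⟩ := bounded hκ (g '' Set.Iic b) (lt_of_le_of_lt mk_image_le (mk_Iic_lt hκ b))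
      exact ⟨c, fun a ha => (hc _ ⟨a, ha, rfl⟩).le⟩)
    (fun α => ⋃₀ (V α)) (fun α => isOpen_sUnion fun U hU' => hU U (hVU α hU'))
    (fun i j hij => sUnion_subset_sUnion (hVmono i j hij)) F hF hFc
  obtain ⟨β, hβ⟩ := hnomax α
  have h1 : f α ∈ F := mem_iUnion.2 ⟨β, subset_closure ⟨α, hβ, rfl⟩⟩
  have h2 : p (V α) ∉ closure (⋃₀ (V α)) := hp (V α) (hVU α) (hVκ α)
  rw [← hf] at h2
  exact h2 (hα h1)

end Pool.Agent.W2helper80.CL
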